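import Pool.Agent.BLP.StmtsM

/-!
# Squad BLP, row M_FEK: Fekete's lemma
-/

namespace Pool.Agent.BLP.H83

open MeasureTheory ProbabilityTheory Filter Topology Finset
open scoped ENNReal

theorem m_fek : FekStmt := by
  intro g C hg hC
  obtain ⟨u, hu⟩ : ∃ u : ℕ → ℝ, u = fun n => if n = 0 then 0 else - g n := ⟨_, rfl⟩
  have hu0 : u 0 = 0 := by rw [hu]; simp
  have hu1 : ∀ n, 1 ≤ n → u n = - g n := by
    intro n hn
    rw [hu]
    simp only
    rw [if_neg (by omega)]
  have hsub : Subadditive u := by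
    intro m n
    rcases Nat.eq_zero_or_pos m with rfl | hm
    · rw [hu0, zero_add, zero_add]
    rcases Nat.eq_zero_or_pos n with rfl | hn
    · rw [hu0, add_zero, add_zero]
    rw [hu1 m hm, hu1 n hn, hu1 (m + n) (by omega)]
    linarith [hg m n hm hn]
  have hbdd : BddBelow (Set.range fun n => u n / n) := by
    refine ⟨min 0 (-C), ?_⟩
    rintro _ ⟨n, rfl⟩
    show min 0 (-C) ≤ u n / n
    rcases Nat.eq_zero_or_pos n with rfl | hn
    · rw [hu0]
      simp
    · refine (min_le_right _ _).trans ?_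
      have hn' : (0 : ℝ) < n := by exact_mod_cast hn
      rw [le_div_iff₀ hn', hu1 n hn]
      linarith [hC n hn]
  refine ⟨-hsub.lim, ?_, ?_⟩
  · have h := (hsub.tendsto_lim hbdd).neg
    refine h.congr' ?_
    filter_upwards [eventually_ge_atTop 1] with n hn
    rw [hu1 n hn, neg_div, neg_neg]
  · intro n hn
    have h := hsub.lim_le_div hbdd (show n ≠ 0 by omega)
    have hn' : (0 : ℝ) < n := by exact_mod_cast hn
    rw [le_div_iff₀ hn', hu1 n hn] at h
    linarith

end Pool.Agent.BLP.H83
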