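import Pool.Agent.BLP.StmtsM
import Pool.Agent.BLP.StmtsA

/-!
# Squad BLP, row M_POS: g(2) is positive
-/

namespace Pool.Agent.BLP.H83

open MeasureTheory ProbabilityTheory Filter Topology Finset
open scoped ENNReal

theorem m_pos (one : OneStmt) (bel : BelStmt) (int : IntStmt) : PosStmt := by
  intro X _ μ B hB
  have := hB.prob
  obtain ⟨U, hU⟩ : ∃ U : X → ℝ, U = fun x => B x 1 2 - B x 1 0 := ⟨_, rfl⟩
  obtain ⟨V, hV⟩ : ∃ V : X → ℝ, V = fun x => B x 0 2 - B x 0 0 := ⟨_, rfl⟩
  have hUlaw : μ.map U = gaussianReal 0 ((2 : ℝ) - 0).toNNReal := by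
    rw [hU]; exact hB.law 1 0 2 (by norm_num)
  have hVlaw : μ.map V = gaussianReal 0 ((2 : ℝ) - 0).toNNReal := by
    rw [hV]; exact hB.law 0 0 2 (by norm_num)
  have hUm : Measurable U := by rw [hU]; exact (hB.mea 1 2).sub (hB.mea 1 0)
  have hVm : Measurable V := by rw [hV]; exact (hB.mea 0 2).sub (hB.mea 0 0)
  -- independence
  have hind : IndepFun U V μ := by
    have h1 := hB.ind.indepFun (show (1 : ℤ) ≠ 0 by norm_num)
    have hφ : Measurable (fun f : ℚ → ℝ => f 2 - f 0) :=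
      (measurable_pi_apply _).sub (measurable_pi_apply _)
    have h2 := h1.comp hφ hφ
    have e1 : (fun f : ℚ → ℝ => f 2 - f 0) ∘ (fun (x : X) => fun q : ℚ => B x 1 q) = U := by
      funext x
      rw [hU]
      simp
    have e2 : (fun f : ℚ → ℝ => f 2 - f 0) ∘ (fun (x : X) => fun q : ℚ => B x 0 q) = V := by
      funext x
      rw [hV]
      simp
    rw [e1, e2] at h2
    exact h2
  have hU0 : ∫ x, U x ∂μ = 0 := by
    have h1 := integral_map (μ := μ) hUm.aemeasurable (f := fun y : ℝ => y)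
      (by fun_prop)
    rw [← h1, hUlaw]
    exact integral_id_gaussianReal
  have hV0 : ∫ x, V x ∂μ = 0 := by
    have h1 := integral_map (μ := μ) hVm.aemeasurable (f := fun y : ℝ => y)
      (by fun_prop)
    rw [← h1, hVlaw]
    exact integral_id_gaussianReal
  have hVar : Var[U; μ] = 2 := by
    rw [← variance_id_map hUm.aemeasurable, hUlaw, variance_id_gaussianReal]
    simp
  have hU2 : ∫ x, U x ^ 2 ∂μ = 2 := by
    rw [← hVar, variance_of_integral_eq_zero hUm.aemeasurable hU0]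
  have hUi : MemLp U 2 μ := by
    have h1 := int X μ B hB 1 0 1 2
    have h2 : (fun x => L (B x) 1 0 1 2) = U := by
      funext x
      rw [(one (B x)).1 1 0 2 (by norm_num), hU]
    rwa [h2] at h1
  have hVi : MemLp V 2 μ := by
    have h1 := int X μ B hB 0 0 0 2
    have h2 : (fun x => L (B x) 0 0 0 2) = V := by
      funext x
      rw [(one (B x)).1 0 0 2 (by norm_num), hV]
    rwa [h2] at h1
  have hUint : Integrable U μ := hUi.integrable (by norm_num)
  have hVint : Integrable V μ := hVi.integrable (by norm_num)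
  -- the lower bound
  have hL : ∀ x, (U x + V x + |U x - V x|) / 2 ≤ L (B x) 0 0 1 2 := by
    intro x
    have h1 := (bel (B x) (hB.cts x) 0 1 0 2 (by norm_num) (by norm_num)).1
    have h2 := h1 0 le_rfl (by norm_num)
    have h3 := h1 2 (by norm_num) le_rfl
    rw [show (0 : ℤ) + 1 = 1 by norm_num, (one (B x)).1 1 0 2 (by norm_num)] at h2
    rw [show (0 : ℤ) + 1 = 1 by norm_num, (one (B x)).1 1 2 2 le_rfl] at h3
    have h4 : U x ≤ L (B x) 0 0 1 2 := by rw [hU]; linarith
    have h5 : V x ≤ L (B x) 0 0 1 2 := by rw [hV]; linarith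
    rcases abs_cases (U x - V x) with ⟨h6, _⟩ | ⟨h6, _⟩ <;> rw [h6] <;> linarith
  have hLi : Integrable (fun x => L (B x) 0 0 1 2) μ :=
    (int X μ B hB 0 0 1 2).integrable (by norm_num)
  have hdi : Integrable (fun x => |U x - V x|) μ := (hUint.sub hVint).abs
  have hge : (∫ x, |U x - V x| ∂μ) / 2 ≤ ∫ x, L (B x) 0 0 1 2 ∂μ := by
    have h1 : ∫ x, (U x + V x + |U x - V x|) / 2 ∂μ ≤ ∫ x, L (B x) 0 0 1 2 ∂μ :=
      integral_mono (((hUint.add hVint).add hdi).div_const 2) hLi hL
    have h2 : ∫ x, (U x + V x + |U x - V x|) / 2 ∂μ = (∫ x, |U x - V x| ∂μ) / 2 := by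
      have e1 : ∫ x, (U x + V x + |U x - V x|) ∂μ =
          (∫ x, (U x + V x) ∂μ) + ∫ x, |U x - V x| ∂μ := integral_add (hUint.add hVint) hdi
      have e2 : ∫ x, (U x + V x) ∂μ = (∫ x, U x ∂μ) + ∫ x, V x ∂μ := integral_add hUint hVint
      rw [integral_div, e1, e2, hU0, hV0]
      ring
    rw [h2] at h1
    exact h1
  have hpos : 0 < ∫ x, |U x - V x| ∂μ := by
    by_contra hneg
    have h0 : ∫ x, |U x - V x| ∂μ = 0 :=
      le_antisymm (not_lt.1 hneg) (integral_nonneg fun x => abs_nonneg _)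
    rw [integral_eq_zero_iff_of_nonneg (fun x => abs_nonneg _) hdi] at h0
    have hae : ∀ᵐ x ∂μ, U x = V x := by
      filter_upwards [h0] with x hx
      have hx' : |U x - V x| = 0 := hx
      rw [abs_eq_zero, sub_eq_zero] at hx'
      exact hx'
    have h1 : ∫ x, U x ^ 2 ∂μ = ∫ x, U x * V x ∂μ := by
      refine integral_congr_ae ?_
      filter_upwards [hae] with x hx
      rw [← hx, pow_two]
    have h2 : ∫ x, U x * V x ∂μ = (∫ x, U x ∂μ) * ∫ x, V x ∂μ :=
      hind.integral_mul_eq_mul_integral hUm.aestronglyMeasurable hVm.aestronglyMeasurable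
    rw [h1, h2, hU0, zero_mul] at hU2
    norm_num at hU2
  have : gg μ B 2 = ∫ x, L (B x) 0 0 1 2 ∂μ := by
    unfold gg
    norm_num
  rw [this]
  linarith

end Pool.Agent.BLP.H83
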